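import Pool.Agent.Helper37.CiMain

/-!
# Every `C_1` field is strongly `C_1`
-/

namespace Pool.Agent.Results.MP_76ffd5_al.COneStrong

universe u

/-- Let `K` be a field such that every form of degree `d > 0` in `n > d` variables has a nontrivial
zero. Then any forms of positive degrees `d_j` in `n > ∑ d_j` variables have a common nontrivial
zero. -/
theorem result : ∀ (K : Type u) [Field K],
    (∀ (n d : ℕ) (f : MvPolynomial (Fin n) K), 0 < d → f.IsHomogeneous d → d < n →
      ∃ x : Fin n → K, x ≠ 0 ∧ MvPolynomial.eval x f = 0) →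
    ∀ (n r : ℕ) (d : Fin r → ℕ) (f : Fin r → MvPolynomial (Fin n) K),
      (∀ j, 0 < d j) → (∀ j, (f j).IsHomogeneous (d j)) → (∑ j, d j) < n →
      ∃ x : Fin n → K, x ≠ 0 ∧ ∀ j, MvPolynomial.eval x (f j) = 0 := by
  intro K _ hK n r d f hd hf hlt
  have hK' : Helper37.Ci.CiS K 1 := Helper37.Ci.ciS_of_zeros (fun n d f hd hf hn =>
    hK n d f hd hf (by simpa using hn))
  exact Helper37.Ci.zeros_of_le (i := 1) f (by simpa using hlt)
    (fun hf0 => Helper37.Ci.main_one hK' hd f hf hf0)

end Pool.Agent.Results.MP_76ffd5_al.COneStrong
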