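import Pool.Agent.Helper40.CS.Extremal

/-!
# Extremal degrees of a `C_i` field which is not strongly `C_i`
-/

namespace Pool.Agent.Results.MP_76ffd5_al.ExtremalDegrees

open Pool.Agent.Helper40.CS

universe u

/-- Let `K` be a `C_i` field (in Lang's sense, for single forms) which is not strongly `C_i`. Then
(a) for some real `ρ < i` and all algebraic extensions `L` of `K`: any `N` forms over `L` whose common degree `e` is a prime power, in `n > N * e ^ ρ`
variables, have a common nontrivial zero in `L`;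
(b) call an integer `e > 1` asymptotically extremal if for every real `ρ < i` there are an algebraic extension `L` of `K`, numbers `k`, `N` and `N` forms
over `L` of degree `e ^ k` in `n > N * e ^ (k * ρ)` variables with only the trivial common zero in `L`; any two such `e`, `e'` satisfy
`e ^ a = e' ^ b` for some `a, b ≥ 1`;
(c) if `i = 2`, then for all finite extensions `L` of `K` and finite Galois extensions `M` of `L` the norm map from `M` to `L` is surjective. -/
theorem result : ∀ (K : Type u) [Field K] (i : ℕ),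
    (∀ (n d : ℕ) (f : MvPolynomial (Fin n) K), 0 < d → f.IsHomogeneous d → d ^ i < n →
      ∃ x : Fin n → K, x ≠ 0 ∧ MvPolynomial.eval x f = 0) →
    (¬ ∀ (n r : ℕ) (d : Fin r → ℕ) (f : Fin r → MvPolynomial (Fin n) K),
      (∀ j, 0 < d j) → (∀ j, (f j).IsHomogeneous (d j)) → (∑ j, d j ^ i) < n →
      ∃ x : Fin n → K, x ≠ 0 ∧ ∀ j, MvPolynomial.eval x (f j) = 0) →
    (∃ ρ : ℝ, ρ < i ∧ ∀ (L : Type u) [Field L] [Algebra K L], Algebra.IsAlgebraic K L →
      ∀ (e N n : ℕ) (g : Fin N → MvPolynomial (Fin n) L), IsPrimePow e → (∀ j, (g j).IsHomogeneous e) →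
        (N : ℝ) * (e : ℝ) ^ ρ < n → ∃ y : Fin n → L, y ≠ 0 ∧ ∀ j, MvPolynomial.eval y (g j) = 0) ∧
    (∀ e e' : ℕ, 1 < e → 1 < e' →
      (∀ ρ : ℝ, ρ < i → ∃ (L : Type u) (_ : Field L) (_ : Algebra K L) (k N n : ℕ),
        Algebra.IsAlgebraic K L ∧ (N : ℝ) * (e : ℝ) ^ (k * ρ) < n ∧
        ∃ g : Fin N → MvPolynomial (Fin n) L, (∀ j, (g j).IsHomogeneous (e ^ k)) ∧
          ∀ y : Fin n → L, (∀ j, MvPolynomial.eval y (g j) = 0) → y = 0) →
      (∀ ρ : ℝ, ρ < i → ∃ (L : Type u) (_ : Field L) (_ : Algebra K L) (k N n : ℕ),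
        Algebra.IsAlgebraic K L ∧ (N : ℝ) * (e' : ℝ) ^ (k * ρ) < n ∧
        ∃ g : Fin N → MvPolynomial (Fin n) L, (∀ j, (g j).IsHomogeneous (e' ^ k)) ∧
          ∀ y : Fin n → L, (∀ j, MvPolynomial.eval y (g j) = 0) → y = 0) →
      ∃ a b : ℕ, 1 ≤ a ∧ 1 ≤ b ∧ e ^ a = e' ^ b) ∧
    (i = 2 → ∀ (L M : Type u) [Field L] [Field M] [Algebra K L] [Algebra L M], FiniteDimensional K L →
      FiniteDimensional L M → IsGalois L M → Function.Surjective (Algebra.norm L : M →* L)) := by
  intro K _ i hC hns
  have hK : Helper37.Ci.CiS K i := Helper37.Ci.ciS_of_zeros hC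
  obtain ⟨P, x, s, hP, hsum, hpot⟩ := potentials hK
  have hs : ∀ p ∈ P, s p < i := by
    intro p hp
    refine lt_of_le_of_ne (hP p hp).2.2.2 (fun h => hns ?_)
    have h1 := hpot p hp
    rw [h, sub_self, zero_div] at h1
    exact h1.strong (hP p hp).1 le_rfl (by linarith)
  have hne : P.Nonempty := by
    by_contra hne
    rw [Finset.not_nonempty_iff_eq_empty] at hne
    rw [hne] at hsum
    simp at hsum
  -- `P` has more than one element
  have hother : ∀ q : ℕ, ∃ p ∈ P, p ≠ q := by
    intro q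
    by_contra hcon
    push Not at hcon
    have hPs : P = {q} := by
      obtain ⟨p, hp⟩ := hne
      refine Finset.eq_singleton_iff_unique_mem.2 ⟨?_, hcon⟩
      rw [← hcon p hp]
      exact hp
    rw [hPs, Finset.sum_singleton] at hsum
    have hqP : q ∈ P := by rw [hPs]; exact Finset.mem_singleton_self q
    have h1 := hpot q hqP
    rw [hsum, div_one] at h1
    exact hns (h1.strong (hP q hqP).1 (by linarith [hs q hqP]) (by linarith))
  have hprime : ∃ ρ : ℝ, ρ < i ∧ ∀ (L : Type u) [Field L] [Algebra K L], Algebra.IsAlgebraic K L →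
      ∀ (e N n : ℕ) (g : Fin N → MvPolynomial (Fin n) L), IsPrimePow e → (∀ j, (g j).IsHomogeneous e) →
        (N : ℝ) * (e : ℝ) ^ ρ < n → ∃ y : Fin n → L, y ≠ 0 ∧ ∀ j, MvPolynomial.eval y (g j) = 0 := by
    obtain ⟨p0, hp0, hmax⟩ := Finset.exists_max_image P s hne
    refine ⟨s p0, hs p0 hp0, fun L _ _ hL e N n g he hg hlt => ?_⟩
    obtain ⟨q, k, hq, hk, rfl⟩ := (isPrimePow_nat_iff _).1 he
    obtain ⟨p, hp, hpq⟩ := hother q
    have he1 : (1 : ℝ) ≤ ((q ^ k : ℕ) : ℝ) := by exact_mod_cast Nat.one_le_pow _ _ hq.pos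
    have hv : padicValNat p (q ^ k) = 0 := by
      apply padicValNat.eq_zero_of_not_dvd
      intro h
      exact hpq ((Nat.prime_dvd_prime_iff_eq (hP p hp).1 hq).1 ((hP p hp).1.dvd_of_dvd_pow h))
    refine ((hpot p hp).algebraic (L := L)).zeros g (fun _ => Nat.pow_pos hq.pos) hg ?_
    rw [hv, pow_zero, Real.one_rpow, mul_one, Finset.sum_const, Finset.card_univ, Fintype.card_fin,
      nsmul_eq_mul]
    refine lt_of_le_of_lt ?_ hlt
    exact mul_le_mul_of_nonneg_left (Real.rpow_le_rpow_of_exponent_le he1 (hmax p hp)) (by positivity)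
  refine ⟨hprime, ?_, ?_⟩
  · intro e e' he he' H H'
    obtain ⟨p, hp⟩ := hne
    have h1 := extremal_eq hP hsum hpot hs he H p hp
    have h3 := extremal_eq hP hsum hpot hs he' H' p hp
    have hx := (hP p hp).2.1
    have hval : ∀ m : ℕ, 1 < m → x p * Real.log m = padicValNat p m * Real.log p →
        1 ≤ padicValNat p m := by
      intro m hm h
      by_contra hv
      have hv0 : padicValNat p m = 0 := by omega
      rw [hv0, Nat.cast_zero, zero_mul] at h
      have h2 : 0 < x p * Real.log m := mul_pos hx (Real.log_pos (by exact_mod_cast hm))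
      linarith
    refine ⟨padicValNat p e', padicValNat p e, hval e' he' h3, hval e he h1, ?_⟩
    have h5 : (padicValNat p e' : ℝ) * Real.log e = padicValNat p e * Real.log e' := by
      have h6 : x p * ((padicValNat p e' : ℝ) * Real.log e) = x p * (padicValNat p e * Real.log e') := by
        calc x p * ((padicValNat p e' : ℝ) * Real.log e)
            = padicValNat p e' * (x p * Real.log e) := by ring
          _ = padicValNat p e * (padicValNat p e' * Real.log p) := by rw [h1]; ring
          _ = padicValNat p e * (x p * Real.log e') := by rw [h3]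
          _ = x p * (padicValNat p e * Real.log e') := by ring
      exact mul_left_cancel₀ hx.ne' h6
    have h7 : Real.log ((e ^ padicValNat p e' : ℕ) : ℝ) = Real.log ((e' ^ padicValNat p e : ℕ) : ℝ) := by
      push_cast
      rw [Real.log_pow, Real.log_pow]
      exact h5
    have h8 := Real.log_injOn_pos (Set.mem_Ioi.2 (by positivity)) (Set.mem_Ioi.2 (by positivity)) h7
    exact_mod_cast h8
  · rintro rfl L M _ _ _ _ hL hM hG
    intro b
    by_contra hb
    push Not at hb
    obtain ⟨L', _, _, hL', l, hl, f, hf, hf0⟩ := Helper59.CI.extremal_two (K := K)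
      ⟨L, M, inferInstance, inferInstance, inferInstance, inferInstance, hL, hM, hG, b, hb⟩
    obtain ⟨ρ, hρ, H⟩ := hprime
    have hl1 : (1 : ℝ) < l := by exact_mod_cast hl.one_lt
    obtain ⟨y, hy, hy0⟩ := H L' (Algebra.IsAlgebraic.of_finite K L') l 1 (1 * l ^ 2) f hl.isPrimePow hf (by
      push_cast
      rw [one_mul, one_mul, ← Real.rpow_natCast (l : ℝ) 2]
      exact Real.rpow_lt_rpow_of_exponent_lt hl1 (by exact_mod_cast hρ))
    exact hy (hf0 y hy0)

end Pool.Agent.Results.MP_76ffd5_al.ExtremalDegrees
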