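import Pool.Agent.Helper40.CS.Final

/-!
# The structure of `C_i` fields: systems over `C_i` fields
-/

namespace Pool.Agent.Results.MP_76ffd5_al.StructureTheorem

open Pool.Agent.Helper40.CS

universe u

/-- Let `K` be a field and `i ≥ 0` an integer. `K` is `C_i` (Lang's property for single forms) if and only if there are a finite set `P` of primes and
real numbers `x_p > 0`, `0 ≤ s_p ≤ i` (`p ∈ P`) with `∑_(p ∈ P) x_p = 1` such that every algebraic extension `L` of `K` satisfies:
for every `p ∈ P`, any forms over `L` of positive degrees `d_j` in `n > ∑_j d_j ^ (s_p) * (p ^ (v_p (d_j))) ^ ((i - s_p) / x_p)` variables have a common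
nontrivial zero in `L`; and any forms over `L` of positive degrees `d_j` in `n > ∑_j d_j ^ (i * |P|)` variables have a common nontrivial zero in `L`
(`L` is strongly `C_(i * |P|)`). -/
theorem result : ∀ (K : Type u) [Field K] (i : ℕ),
    (∀ (n d : ℕ) (f : MvPolynomial (Fin n) K), 0 < d → f.IsHomogeneous d → d ^ i < n →
        ∃ x : Fin n → K, x ≠ 0 ∧ MvPolynomial.eval x f = 0) ↔
      ∃ (P : Finset ℕ) (x s : ℕ → ℝ), (∀ p ∈ P, p.Prime ∧ 0 < x p ∧ 0 ≤ s p ∧ s p ≤ i) ∧ ∑ p ∈ P, x p = 1 ∧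
        ∀ (L : Type u) [Field L] [Algebra K L], Algebra.IsAlgebraic K L →
          (∀ p ∈ P, ∀ (n r : ℕ) (d : Fin r → ℕ) (f : Fin r → MvPolynomial (Fin n) L),
            (∀ j, 0 < d j) → (∀ j, (f j).IsHomogeneous (d j)) →
            ∑ j, (d j : ℝ) ^ (s p) * ((p : ℝ) ^ (padicValNat p (d j))) ^ ((i - s p) / x p) < n →
            ∃ x : Fin n → L, x ≠ 0 ∧ ∀ j, MvPolynomial.eval x (f j) = 0) ∧
          (∀ (n r : ℕ) (d : Fin r → ℕ) (f : Fin r → MvPolynomial (Fin n) L),
            (∀ j, 0 < d j) → (∀ j, (f j).IsHomogeneous (d j)) → (∑ j, d j ^ (i * P.card)) < n →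
            ∃ x : Fin n → L, x ≠ 0 ∧ ∀ j, MvPolynomial.eval x (f j) = 0) := by
  intro K _ i
  refine ⟨fun hK => ?_, fun h => ?_⟩
  · obtain ⟨P, x, s, hP, hsum, hpot⟩ := potentials (Helper37.Ci.ciS_of_zeros hK)
    refine ⟨P, x, s, hP, hsum, fun L _ _ _ => ⟨fun p hp n r d f hd hf hlt =>
      ((hpot p hp).algebraic (L := L)).zeros f hd hf hlt, ?_⟩⟩
    have hne : P.Nonempty := by
      by_contra hne
      rw [Finset.not_nonempty_iff_eq_empty] at hne
      rw [hne] at hsum
      simp at hsum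
    have hcard : (1 : ℝ) ≤ P.card := by exact_mod_cast hne.card_pos
    obtain ⟨p, hp, hxp⟩ : ∃ p ∈ P, 1 / (P.card : ℝ) ≤ x p := by
      by_contra hcon
      push Not at hcon
      have h1 : ∑ p ∈ P, x p < ∑ _p ∈ P, 1 / (P.card : ℝ) := Finset.sum_lt_sum_of_nonempty hne hcon
      rw [hsum, Finset.sum_const, nsmul_eq_mul, mul_one_div_cancel (by linarith)] at h1
      exact lt_irrefl _ h1
    obtain ⟨hpp, hx0, hs0, hsi⟩ := hP p hp
    refine ((hpot p hp).algebraic (L := L)).strong hpp (div_nonneg (by linarith) hx0.le) ?_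
    push_cast
    have h2 : (i - s p) / x p ≤ (i - s p) * P.card := by
      rw [div_le_iff₀ hx0]
      rw [div_le_iff₀ (by linarith)] at hxp
      have h3 : 0 ≤ i - s p := by linarith
      nlinarith
    nlinarith
  · obtain ⟨P, x, s, hP, hsum, hpot⟩ := h
    have hK : Helper37.Ci.CiS K i := ciS_of_potentials hP hsum (fun p hp =>
      pot_of_zeros (fun n r d f hd hf hlt =>
        (hpot K inferInstance).1 p hp n r d f hd hf hlt))
    exact fun n d f hd hf hlt => zeros_of_ciS hK n d f hd hf hlt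

end Pool.Agent.Results.MP_76ffd5_al.StructureTheorem
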